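import Pool.Agent.Helper39.TW.Stmts

/-! Combination of walks (1d). -/

namespace TwoWalk

open Finset

section
variable {V : Type} [DecidableEq V]

theorem CM_vis_add {M K : Finset V} (hd : Disjoint M K) {f g : V → ℕ} (hf : Vis M f)
    (hg : Vis K g) : Vis (M ∪ K) (fun v => f v + g v) := by
  constructor
  · intro v hv
    rcases Finset.mem_union.1 hv with h | h
    · have hk : v ∉ K := Finset.disjoint_left.1 hd h
      have h1 := hf.1 v h
      have h2 := hg.2 v hk
      simp only [h2]
      omega
    · have hk : v ∉ M := Finset.disjoint_right.1 hd h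
      have h1 := hg.1 v h
      have h2 := hf.2 v hk
      simp only [h2]
      omega
  · intro v hv
    have hv' : v ∉ M ∧ v ∉ K := by
      constructor
      · intro h; exact hv (Finset.mem_union_left _ h)
      · intro h; exact hv (Finset.mem_union_right _ h)
    have h1 := hf.2 v hv'.1
    have h2 := hg.2 v hv'.2
    simp only [h1, h2]

theorem CM_dbl_add {M K : Finset V} (hd : Disjoint M K) {f g : V → ℕ} (hf : Vis M f)
    (hg : Vis K g) : dbl (M ∪ K) (fun v => f v + g v) = dbl M f + dbl K g := by
  unfold dbl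
  rw [Finset.filter_union, Finset.card_union_of_disjoint]
  · congr 1
    · congr 1
      apply Finset.filter_congr
      intro v hv
      have h2 := hg.2 v (Finset.disjoint_left.1 hd hv)
      simp only [h2, add_zero]
    · congr 1
      apply Finset.filter_congr
      intro v hv
      have h2 := hf.2 v (Finset.disjoint_right.1 hd hv)
      simp only [h2, zero_add]
  · exact Finset.disjoint_filter_filter hd

/-- `h + δ_a + δ_c` -/
theorem CM_vis_two {M : Finset V} {a c : V} (ha : a ∈ M) (hc : c ∈ M) (hac : a ≠ c) {h : V → ℕ}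
    (hh : Vis M h) (h1 : h a = 1) (h2 : h c = 1) :
    Vis M (fun v => (h v + if v = a then 1 else 0) + if v = c then 1 else 0) := by
  constructor
  · intro v hv
    by_cases hva : v = a
    · subst hva
      right
      simp only [h1, if_true, if_neg hac]
    · by_cases hvc : v = c
      · subst hvc
        right
        simp only [h2, if_true, if_neg hva]
      · simp only [if_neg hva, if_neg hvc]
        have := hh.1 v hv
        omega
  · intro v hv
    have hva : v ≠ a := fun h => hv (h ▸ ha)
    have hvc : v ≠ c := fun h => hv (h ▸ hc)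
    simp only [if_neg hva, if_neg hvc, hh.2 v hv]

theorem CM_dbl_two {M : Finset V} {a c : V} {h : V → ℕ} :
    dbl M (fun v => (h v + if v = a then 1 else 0) + if v = c then 1 else 0) ≤ dbl M h + 2 := by
  unfold dbl
  have hsub : M.filter (fun v => ((h v + if v = a then 1 else 0) + if v = c then 1 else 0) = 2) ⊆
      M.filter (fun v => h v = 2) ∪ {a, c} := by
    intro v hv
    rw [Finset.mem_filter] at hv
    rw [Finset.mem_union, Finset.mem_filter, Finset.mem_insert, Finset.mem_singleton]
    by_cases hva : v = a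
    · right; left; exact hva
    · by_cases hvc : v = c
      · right; right; exact hvc
      · left
        refine ⟨hv.1, ?_⟩
        have := hv.2
        simp only [if_neg hva, if_neg hvc, add_zero] at this
        exact this
  refine (Finset.card_le_card hsub).trans ?_
  refine (Finset.card_union_le _ _).trans ?_
  have : ({a, c} : Finset V).card ≤ 2 := Finset.card_le_two
  omega

/-- `h + δ_b` -/
theorem CM_vis_one {M : Finset V} {b : V} (hb : b ∈ M) {h : V → ℕ}
    (hh : Vis M h) (h1 : h b = 1) : Vis M (fun v => h v + if v = b then 1 else 0) := by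
  constructor
  · intro v hv
    by_cases hva : v = b
    · subst hva
      right
      simp only [h1, if_true]
    · simp only [if_neg hva]
      have := hh.1 v hv
      omega
  · intro v hv
    have hva : v ≠ b := fun h => hv (h ▸ hb)
    simp only [if_neg hva, hh.2 v hv]

theorem CM_dbl_one {M : Finset V} {b : V} {h : V → ℕ} :
    dbl M (fun v => h v + if v = b then 1 else 0) ≤ dbl M h + 1 := by
  unfold dbl
  have hsub : M.filter (fun v => (h v + if v = b then 1 else 0) = 2) ⊆
      M.filter (fun v => h v = 2) ∪ {b} := by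
    intro v hv
    rw [Finset.mem_filter] at hv
    rw [Finset.mem_union, Finset.mem_filter, Finset.mem_singleton]
    by_cases hva : v = b
    · right; exact hva
    · left
      refine ⟨hv.1, ?_⟩
      have := hv.2
      simp only [if_neg hva, add_zero] at this
      exact this
  refine (Finset.card_le_card hsub).trans ?_
  refine (Finset.card_union_le _ _).trans ?_
  simp

theorem CM_vis_single (b : V) : Vis ({b} : Finset V) (fun v => if v = b then 1 else 0) := by
  constructor
  · intro v hv
    rw [Finset.mem_singleton] at hv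
    simp [hv]
  · intro v hv
    rw [Finset.mem_singleton] at hv
    simp [hv]

theorem CM_dbl_single (b : V) : dbl ({b} : Finset V) (fun v => if v = b then 1 else 0) = 0 := by
  unfold dbl
  rw [Finset.card_eq_zero, Finset.filter_eq_empty_iff]
  intro v hv
  rw [Finset.mem_singleton] at hv
  simp [hv]

theorem CM_OW_congr {G : SimpleGraph V} {x y : V} {f g : V → ℕ} (h : OW G x y f)
    (hfg : ∀ v, f v = g v) : OW G x y g := by
  have : f = g := funext hfg
  rwa [this] at h

/-- the third walk: from `a` through `K` to `c`, with `h` inserted at `c` -/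
theorem CM_third (h0 : ST_W0) (h1 : ST_W1) (h4 : ST_W4) {G : SimpleGraph V} {a c s t : V}
    {h g : V → ℕ} (hh : CW G h) (hc : h c ≠ 0) (hg : OW G s t g) (has : G.Adj a s)
    (htc : G.Adj t c) :
    OW G a c (fun v => ((h v + if v = a then 1 else 0) + if v = c then 1 else 0) + g v) := by
  have e1 := h1 V G a a s t _ _ (h0 V G a) has hg
  have e2 := h1 V G a t c c _ _ e1 htc (h0 V G c)
  have e3 := h4 V G a c c _ h e2 hh (by simp) hc
  exact CM_OW_congr e3 (fun v => by omega)

end

theorem st_CM1 (h0 : ST_W0) (h1 : ST_W1) (h3 : ST_W3) (h4 : ST_W4) : ST_CM1 := by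
  intro V _ G M K a c b k₁ k₂ hd ha hc hac hk₁ hk₂ hb hkk hbk₁ hbk₂ hadj1 hadj2 hM hK
  obtain ⟨h, p, q, vh, vp, vq, ch, op, oq, hcx, hax, pa, qc, hs1, hs2⟩ := hM
  obtain ⟨f₁, f₂, f₃, v1, v2, v3, o1, e1, o2, e2, o3, e3, hs3⟩ := hK
  have haK : a ∉ K := Finset.disjoint_left.1 hd ha
  have hcK : c ∉ K := Finset.disjoint_left.1 hd hc
  have hbM : b ∉ M := Finset.disjoint_right.1 hd hb
  have hv := CM_vis_two ha hc hac vh hax hcx
  refine ⟨fun v => p v + f₂ v, fun v => q v + f₁ v,
    fun v => ((h v + if v = a then 1 else 0) + if v = c then 1 else 0) + f₃ v,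
    CM_vis_add hd vp v2, CM_vis_add hd vq v1, CM_vis_add hd hv v3, ?_, ?_, ?_, ?_, ?_, ?_, ?_⟩
  · exact h1 V G c a k₂ b p f₂ op hadj1 o2
  · show p a + f₂ a = 1
    rw [pa, v2.2 a haK]
  · exact h1 V G a c k₁ b q f₁ (h3 V G c a q oq) hadj2 o1
  · show q c + f₁ c = 1
    rw [qc, v1.2 c hcK]
  · exact CM_third h0 h1 h4 ch (by rw [hcx]; exact one_ne_zero) o3 hadj1 hadj2.symm
  · show ((h b + if b = a then 1 else 0) + if b = c then 1 else 0) + f₃ b = 1
    have hba : b ≠ a := fun e => hbM (e ▸ ha)
    have hbc : b ≠ c := fun e => hbM (e ▸ hc)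
    rw [vh.2 b hbM, if_neg hba, if_neg hbc, e3]
  · rw [CM_dbl_add hd vp v2, CM_dbl_add hd vq v1, CM_dbl_add hd hv v3,
      Finset.card_union_of_disjoint hd]
    have := CM_dbl_two (M := M) (a := a) (c := c) (h := h)
    omega

theorem st_CM2 (h0 : ST_W0) (h1 : ST_W1) (h3 : ST_W3) (h4 : ST_W4) : ST_CM2 := by
  intro V _ G M K a c b k₁ hd ha hc hac hk₁ hb hbk hadj1 hadj2 hM hK
  obtain ⟨h, p, q, vh, vp, vq, ch, op, oq, hcx, hax, pa, qc, hs1, hs2⟩ := hM
  obtain ⟨h', p', q', vh', vp', vq', ch', op', oq', hbx', hkx', pk', qb', hs1', hs2'⟩ := hK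
  have haK : a ∉ K := Finset.disjoint_left.1 hd ha
  have hcK : c ∉ K := Finset.disjoint_left.1 hd hc
  have hbM : b ∉ M := Finset.disjoint_right.1 hd hb
  have hba : b ≠ a := fun e => hbM (e ▸ ha)
  have hbc : b ≠ c := fun e => hbM (e ▸ hc)
  have hv := CM_vis_two ha hc hac vh hax hcx
  have hv' := CM_vis_one hb vh' hbx'
  refine ⟨fun v => p v + (h' v + if v = b then 1 else 0), fun v => q v + q' v,
    fun v => ((h v + if v = a then 1 else 0) + if v = c then 1 else 0) + q' v,
    CM_vis_add hd vp hv', CM_vis_add hd vq vq', CM_vis_add hd hv vq', ?_, ?_, ?_, ?_, ?_, ?_, ?_⟩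
  · have e1 := h1 V G c a b b p _ op hadj1 (h0 V G b)
    have e2 := h4 V G c b b _ h' e1 ch' (by simp) (by rw [hbx']; exact one_ne_zero)
    exact CM_OW_congr e2 (fun v => by omega)
  · show p a + (h' a + if a = b then 1 else 0) = 1
    rw [pa, vh'.2 a haK, if_neg hba.symm]
  · exact h1 V G a c k₁ b q q' (h3 V G c a q oq) hadj2 (h3 V G b k₁ q' oq')
  · show q c + q' c = 1
    rw [qc, vq'.2 c hcK]
  · exact CM_third h0 h1 h4 ch (by rw [hcx]; exact one_ne_zero) oq' hadj1 hadj2.symm
  · show ((h b + if b = a then 1 else 0) + if b = c then 1 else 0) + q' b = 1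
    rw [vh.2 b hbM, if_neg hba, if_neg hbc, qb']
  · rw [CM_dbl_add hd vp hv', CM_dbl_add hd vq vq', CM_dbl_add hd hv vq',
      Finset.card_union_of_disjoint hd]
    have t1 := CM_dbl_two (M := M) (a := a) (c := c) (h := h)
    have t2 := CM_dbl_one (M := K) (b := b) (h := h')
    omega

theorem st_CM3 (h0 : ST_W0) (h1 : ST_W1) (h3 : ST_W3) (h4 : ST_W4) : ST_CM3 := by
  intro V _ G M a c b hbM ha hc hac hadj1 hadj2 hM
  obtain ⟨h, p, q, vh, vp, vq, ch, op, oq, hcx, hax, pa, qc, hs1, hs2⟩ := hM
  have hd : Disjoint M {b} := Finset.disjoint_singleton_right.2 hbM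
  have hins : insert b M = M ∪ {b} := by
    ext v
    simp only [Finset.mem_insert, Finset.mem_union, Finset.mem_singleton]
    exact or_comm
  have hba : b ≠ a := fun e => hbM (e ▸ ha)
  have hbc : b ≠ c := fun e => hbM (e ▸ hc)
  have hv := CM_vis_two ha hc hac vh hax hcx
  have hv' := CM_vis_single b
  rw [hins]
  refine ⟨fun v => p v + (if v = b then 1 else 0), fun v => q v + (if v = b then 1 else 0),
    fun v => ((h v + if v = a then 1 else 0) + if v = c then 1 else 0) +
      (if v = b then 1 else 0),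
    CM_vis_add hd vp hv', CM_vis_add hd vq hv', CM_vis_add hd hv hv', ?_, ?_, ?_, ?_, ?_, ?_, ?_⟩
  · exact h1 V G c a b b p _ op hadj1 (h0 V G b)
  · show p a + (if a = b then 1 else 0) = 1
    rw [pa, if_neg hba.symm]
  · exact h1 V G a c b b q _ (h3 V G c a q oq) hadj2 (h0 V G b)
  · show q c + (if c = b then 1 else 0) = 1
    rw [qc, if_neg hbc.symm]
  · exact CM_third h0 h1 h4 ch (by rw [hcx]; exact one_ne_zero) (h0 V G b) hadj1 hadj2.symm
  · show ((h b + if b = a then 1 else 0) + if b = c then 1 else 0) + (if b = b then 1 else 0) = 1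
    rw [vh.2 b hbM, if_neg hba, if_neg hbc, if_pos rfl]
  · rw [CM_dbl_add hd vp hv', CM_dbl_add hd vq hv', CM_dbl_add hd hv hv',
      Finset.card_union_of_disjoint hd, CM_dbl_single, Finset.card_singleton]
    have t1 := CM_dbl_two (M := M) (a := a) (c := c) (h := h)
    omega

end TwoWalk
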