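import Pool.Agent.Helper22.TW.Stmts

/-!
# MP_8312c9_nt, module OPN: finite values stay finite nearby
-/

set_option autoImplicit false

namespace Pool.Agent.Helper22.TW

open Pool.Agent.Helper14.BSC Polynomial

/-- the nonarchimedean fact used below -/
theorem opn_norm {p : ℕ} [Fact p.Prime] (x y : ℂ_[p]) (h : ‖x - y‖ < ‖y‖) : ‖x‖ = ‖y‖ := by
  have h1 : x = (x - y) + y := by ring
  rw [h1, IsUltrametricDist.norm_add_eq_max_of_norm_ne_norm h.ne]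
  exact max_eq_right h.le

theorem opn_zpow {r : ℝ} (h0 : 0 < r) (h1 : r < 1) {i j : ℤ} (h : r ^ i = r ^ j) : i = j :=
  zpow_right_injective₀ h0 h1.ne h

theorem opn_mem {k Ω : Type} [Field k] [Field Ω] [Algebra k Ω] {D : Sec k Ω} {p : ℕ}
    [Fact p.Prime] {σ : k →+* ℂ_[p]} (P : Place D p σ) (c : k) :
    algebraMap k (LL D) c ∈ P.C := (P.base c).choose

theorem opn_val {k Ω : Type} [Field k] [Field Ω] [Algebra k Ω] {D : Sec k Ω} {p : ℕ}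
    [Fact p.Prime] {σ : k →+* ℂ_[p]} (P : Place D p σ) (c : k) :
    P.φ ⟨algebraMap k (LL D) c, opn_mem P c⟩ = σ c := (P.base c).choose_spec

theorem opn_inv {k Ω : Type} [Field k] [Field Ω] [Algebra k Ω] {D : Sec k Ω} {p : ℕ}
    [Fact p.Prime] {σ : k →+* ℂ_[p]} (P : Place D p σ) (x : LL D) (hx : x ∈ P.C)
    (h : P.φ ⟨x, hx⟩ ≠ 0) : x ≠ 0 ∧ x⁻¹ ∈ P.C := by
  have h1 := (P.ker ⟨x, hx⟩).not.mp h
  simp only [not_or, not_not] at h1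
  exact h1

/-- the unit `(f - a)/(f - b)` -/
theorem opn_unit {k Ω : Type} [Field k] [Field Ω] [Algebra k Ω] {D : Sec k Ω} {p : ℕ}
    [Fact p.Prime] {σ : k →+* ℂ_[p]} (P : Place D p σ) (f : LL D) (hf : f ∈ P.C) (a b : k)
    (hb : P.φ ⟨f, hf⟩ - σ b ≠ 0) :
    ∃ hr : (f - algebraMap k (LL D) a) * (f - algebraMap k (LL D) b)⁻¹ ∈ P.C,
      P.φ ⟨_, hr⟩ * (P.φ ⟨f, hf⟩ - σ b) = P.φ ⟨f, hf⟩ - σ a := by
  have hA : f - algebraMap k (LL D) a ∈ P.C := sub_mem hf (opn_mem P a)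
  have hB : f - algebraMap k (LL D) b ∈ P.C := sub_mem hf (opn_mem P b)
  have eA : P.φ ⟨_, hA⟩ = P.φ ⟨f, hf⟩ - σ a := by
    rw [← opn_val P a, ← map_sub]
    rfl
  have eB : P.φ ⟨_, hB⟩ = P.φ ⟨f, hf⟩ - σ b := by
    rw [← opn_val P b, ← map_sub]
    rfl
  obtain ⟨hB0, hBi⟩ := opn_inv P _ hB (by rw [eB]; exact hb)
  refine ⟨mul_mem hA hBi, ?_⟩
  rw [← eA, ← eB, ← map_mul]
  congr 1
  apply Subtype.ext
  show (f - algebraMap k (LL D) a) * (f - algebraMap k (LL D) b)⁻¹ *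
    (f - algebraMap k (LL D) b) = f - algebraMap k (LL D) a
  rw [inv_mul_cancel_right₀ hB0]

/-- the unit `(f - a)/(f - b)` when `f` has the value `∞` -/
theorem opn_unit' {k Ω : Type} [Field k] [Field Ω] [Algebra k Ω] {D : Sec k Ω} {p : ℕ}
    [Fact p.Prime] {σ : k →+* ℂ_[p]} (P : Place D p σ) (f : LL D) (hf : f ∉ P.C) (a b : k) :
    ∃ hr : (f - algebraMap k (LL D) a) * (f - algebraMap k (LL D) b)⁻¹ ∈ P.C,
      P.φ ⟨_, hr⟩ = 1 := by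
  have hB : f - algebraMap k (LL D) b ∉ P.C := by
    intro h
    apply hf
    have := add_mem h (opn_mem P b)
    rwa [sub_add_cancel] at this
  have hB0 : f - algebraMap k (LL D) b ≠ 0 := by
    intro h
    rw [h] at hB
    exact hB P.C.zero_mem
  have hBi : (f - algebraMap k (LL D) b)⁻¹ ∈ P.C := by
    rcases P.C.mem_or_inv_mem (f - algebraMap k (LL D) b) with h | h
    · exact absurd h hB
    · exact h
  have eB : P.φ ⟨_, hBi⟩ = 0 := by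
    rw [P.ker]
    right
    rw [inv_inv]
    exact hB
  have hr : (f - algebraMap k (LL D) a) * (f - algebraMap k (LL D) b)⁻¹ =
      1 + (algebraMap k (LL D) (b - a)) * (f - algebraMap k (LL D) b)⁻¹ := by
    have h1 : f - algebraMap k (LL D) a =
        (f - algebraMap k (LL D) b) + algebraMap k (LL D) (b - a) := by
      rw [map_sub]; ring
    rw [h1, add_mul, mul_inv_cancel₀ hB0]
  have hm : 1 + (algebraMap k (LL D) (b - a)) * (f - algebraMap k (LL D) b)⁻¹ ∈ P.C :=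
    add_mem (one_mem _) (mul_mem (opn_mem P _) hBi)
  have ev : P.φ ⟨_, hm⟩ = 1 := by
    have h2 : (⟨_, hm⟩ : P.C) = 1 + ⟨algebraMap k (LL D) (b - a), opn_mem P _⟩ *
        ⟨(f - algebraMap k (LL D) b)⁻¹, hBi⟩ := rfl
    rw [h2, map_add, map_mul, map_one, eB, mul_zero, add_zero]
  simp only [hr]
  exact ⟨hm, ev⟩

theorem st_OPN (hKUM : ST_KUM) (hBOT : ST_BOT) (hPL : ST_PL) (hCNT : ST_CNT) (hUNF : ST_UNF) :
    ST_OPN := by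
  intro F k Ω _ _ _ _ _ _ _ t hgen D p _ σ E hE hσE hden f P hf
  obtain ⟨hval, hkum⟩ := hPL k Ω D p σ E hE hσE P
  obtain ⟨ϖ, hϖE, hϖ0, hϖ1, hdisc⟩ := hUNF p E hE
  have hμE : P.φ ⟨f, hf⟩ ∈ E := hval _
  obtain ⟨b, hb⟩ := hden (P.φ ⟨f, hf⟩ + 1) (add_mem hμE (one_mem _)) 1 one_pos
  obtain ⟨a, ha⟩ := hden (P.φ ⟨f, hf⟩ + ϖ) (add_mem hμE hϖE) ‖ϖ‖ hϖ0
  rw [RingHom.comp_apply] at ha hb
  set a' := algebraMap F k a with ha'
  set b' := algebraMap F k b with hb'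
  have hnb : ‖P.φ ⟨f, hf⟩ - σ b'‖ = 1 := by
    rw [norm_sub_rev]
    have h1 : ‖(σ b' - P.φ ⟨f, hf⟩) - 1‖ < ‖(1 : ℂ_[p])‖ := by
      rw [norm_one]
      have : σ b' - P.φ ⟨f, hf⟩ - 1 = σ b' - (P.φ ⟨f, hf⟩ + 1) := by ring
      rw [this]; exact hb
    rw [opn_norm _ _ h1, norm_one]
  have hna : ‖P.φ ⟨f, hf⟩ - σ a'‖ = ‖ϖ‖ := by
    rw [norm_sub_rev]
    have h1 : ‖(σ a' - P.φ ⟨f, hf⟩) - ϖ‖ < ‖ϖ‖ := by
      have : σ a' - P.φ ⟨f, hf⟩ - ϖ = σ a' - (P.φ ⟨f, hf⟩ + ϖ) := by ring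
      rw [this]; exact ha
    exact opn_norm _ _ h1
  have hb0 : P.φ ⟨f, hf⟩ - σ b' ≠ 0 := by
    intro h
    rw [h, norm_zero] at hnb
    exact zero_ne_one hnb
  obtain ⟨hr, er⟩ := opn_unit P f hf a' b' hb0
  have hnr : ‖P.φ ⟨_, hr⟩‖ = ‖ϖ‖ := by
    have := congrArg norm er
    rw [norm_mul, hnb, mul_one, hna] at this
    exact this
  have hφr0 : P.φ ⟨_, hr⟩ ≠ 0 := by
    intro h
    rw [h, norm_zero] at hnr
    exact hϖ0.ne hnr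
  obtain ⟨hr0, -⟩ := opn_inv P _ hr hφr0
  obtain ⟨c, hc0, g, hg0, hcg⟩ := hKUM k Ω D ∅ 2 two_pos _ hr0
  obtain ⟨c', hc'⟩ := hBOT k Ω (c : Acl k Ω) c.2
  have hcg' : (f - algebraMap k (LL D) a') * (f - algebraMap k (LL D) b')⁻¹ =
      algebraMap k (LL D) c' * g ^ 2 := by
    rw [hcg]
    congr 1
    apply Subtype.ext
    rw [coe_inc, hc']
    rfl
  obtain ⟨w, hwE, hw0, hσc⟩ := hkum ⟨_, hr⟩ hφr0 2 two_pos c' g hcg'
  obtain ⟨j, hj⟩ := hdisc w hwE hw0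
  have hnc : ‖σ c'‖ = ‖ϖ‖ ^ (1 + 2 * j) := by
    rw [hσc, norm_mul, norm_pow, hnr, hj, zpow_add₀ hϖ0.ne', zpow_one, mul_comm 2 j, zpow_mul]
    rfl
  have hσc0 : 0 < ‖σ c'‖ := by
    rw [hnc]; exact zpow_pos hϖ0 _
  obtain ⟨ε, hε, H⟩ := hCNT F k t hgen c' p σ ‖σ c'‖ hσc0
  refine ⟨ε, hε, ?_⟩
  intro σ' hσ'F hσ'E hσ't P'
  by_contra hf'
  have hn' : ‖σ' c'‖ = ‖σ c'‖ := opn_norm _ _ (H σ' hσ'F hσ't)
  obtain ⟨hr', er'⟩ := opn_unit' P' f hf' a' b'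
  obtain ⟨-, hkum'⟩ := hPL k Ω D p σ' E hE hσ'E P'
  obtain ⟨w', hw'E, hw'0, hσ'c⟩ := hkum' ⟨_, hr'⟩ (by rw [er']; exact one_ne_zero) 2 two_pos c' g
    hcg'
  obtain ⟨j', hj'⟩ := hdisc w' hw'E hw'0
  rw [er', one_mul] at hσ'c
  rw [hσ'c, norm_pow, hj', hnc] at hn'
  have h2 : (‖ϖ‖ ^ j') ^ 2 = ‖ϖ‖ ^ (j' * 2) := by
    rw [zpow_mul]; rfl
  rw [h2] at hn'
  have := opn_zpow hϖ0 hϖ1 hn'
  omega

end Pool.Agent.Helper22.TW
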